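import Mathlib
import Pool.Agent.Helper637.GW.Bounds
import Pool.Agent.Helper637.GW.Fld
import Pool.Agent.Helper637.GW.Char

set_option autoImplicit false

namespace Pool.Agent.Results.MP_628faf_lc.OutsideTriangle

open Pool.Agent.Helper637.GW Polynomial

/-- **The Gray–Wyner profile of a random incident line–point pair.** The profile is exactly the set
`IncExp` of achievable exponents of incidences between lines and points over the fields with `2 ^ n`
elements. Outside the open triangle `a < 2b`, `b < 2a`, `a + b < 3` it is determined exactly; in the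
triangle the least third coordinate is at most `3 - 2 (a + b) / 3` and at least this number minus a
sixth of the least of `2a - b`, `2b - a`, `3 - a - b`. -/
theorem result :
    (∃ D, OptimalCond D) ∧ (∃ f, FieldSeq f) ∧
    (∃ pr : List Bool → List Bool → List Bool, Computable₂ pr ∧
      ∀ x y x' y', pr x y = pr x' y' → x = x' ∧ y = y') ∧
    ∀ D : List Bool → List Bool →. List Bool, OptimalCond D →
    ∀ pr : List Bool → List Bool → List Bool, Computable₂ pr →
      (∀ x y x' y', pr x y = pr x' y' → x = x' ∧ y = y') →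
    ∀ f : ℕ → (ZMod 2)[X], FieldSeq f →
    Prof D pr f = IncExp ∧
    ∀ a b c : ℝ,
      ((2 * b ≤ a ∨ 2 * a ≤ b ∨ 3 ≤ a + b) →
        ((a, b, c) ∈ Prof D pr f ↔ 0 ≤ a ∧ 0 ≤ b ∧ low a b ≤ c)) ∧
      ((a, b, c) ∈ Prof D pr f → 0 ≤ a ∧ 0 ≤ b ∧ low a b ≤ c) ∧
      (a ≤ 2 * b → b ≤ 2 * a → a + b ≤ 3 →
        (3 - 2 * (a + b) / 3 ≤ c → (a, b, c) ∈ Prof D pr f) ∧
        ((a, b, c) ∈ Prof D pr f →
          3 - 2 * (a + b) / 3 - min (2 * a - b) (min (2 * b - a) (3 - a - b)) / 6 ≤ c)) := by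
  refine ⟨exists_optimalCond, exists_fieldSeq, exists_pairing, fun D hD pr _ hpr f hf =>
    ⟨?_, fun a b c => ⟨fun h => ⟨fun hm => outer hD hpr hf hm, fun h' =>
      inner_out hD hf h'.1 h'.2.1 h h'.2.2⟩, fun hm => outer hD hpr hf hm, fun h1 h2 h3 =>
      ⟨fun hc => inner_in hD hf h1 h2 h3 hc,
        fun hm => low_in h1 h2 h3 (outer hD hpr hf hm).2.2⟩⟩⟩⟩
  ext ⟨a, b, c⟩
  exact ⟨incExp_of_mem hD hpr hf, mem_of_incExp hD hf⟩

end Pool.Agent.Results.MP_628faf_lc.OutsideTriangle
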